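import Mathlib
import Pool.Agent.R387.BV.Main

/-!
# MP_4a177b_nt: Beilinson's conjecture for `K_j(X)` at `s = 0` and at all integers `s = -a ≤ 0`

`S` is a class of smooth proper varieties over `ℚ`, and `Data S`, `IsData` collect the standard formal
properties of regulators and L-functions (projective bundle formula, blow-up formula, embeddings in
projective spaces). `Beilinson D X j a` is Beilinson's conjecture for `K_j(X)_ℤ^{(j-a)}` and
`L(h^{j-1-2a}(X), s)` at `s = -a`; for `a = 0` it is the statement of Q1. For every `j` for which
Q1 holds for `Spec ℚ` (this is trivial for `j ≥ 2`):

(1) Q1 for all iterated blow-ups of projective spaces (in good centres) is equivalent to the conjecture for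
    all good varieties and all `s = -a`, `a ≥ 1`;
(2) Q1 for all good varieties is equivalent to the conjecture for all good varieties and all `s = -a`,
    `a ≥ 0`;
(3) if Q1 holds for all iterated blow-ups of projective spaces, then it is, for all good varieties,
    invariant under blow-ups and under products with projective spaces;
(4) Q1 for all good varieties of dimension `≤ N` is equivalent to the conjecture at `s = -a` for all good
    varieties of dimension `≤ N - a`, `a ≥ 0`.
-/

set_option autoImplicit false

open Pool.Agent.R387.BV

namespace Pool.Agent.Results.MP_4a177b_nt.NegativeIntegers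

theorem result {S : VarClass} {D : Data S} (h : IsData D) (hpt : Good D D.pt) (j : ℕ)
    (h0 : Beilinson D D.pt j 0) :
    TowersIff D j ∧ AllIff D j ∧ Invariance D j ∧ ∀ N, UpToDimension D j N :=
  ⟨towersIff h hpt h0, allIff h hpt j, invariance h hpt j, upToDimension h j⟩

end Pool.Agent.Results.MP_4a177b_nt.NegativeIntegers
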