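import Pool.Agent.R898.KBM

/-!
# Beilinson's conjecture for `K_j^(j)` of products of curves, regular surfaces and complete
# intersections

Let `𝒱` be a class of smooth projective varieties over `ℚ` which is closed under products and contains
the projective spaces, `C` their Chow groups with rational coefficients and `W` a Weil cohomology
theory. We call `X` elementary if outside of the degree `dim X` its cohomology consists of the
multiples of the powers of a divisor class: all curves, all regular surfaces and all complete
intersections of positive dimension are elementary.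

Fix `j ≥ 2` (`j ≥ 1` in the theorem) and let `gr X n = K_j(X)_ℤ^(n)` be Scholl's integral part. We use
only that correspondences act on these spaces. Let `o X p l` be the dimension of the Deligne cohomology
`H_𝒟^(l+1)(X, p; ℝ(n))`, `2n = l + j + 1`, of the motive `(X, p)`, for `n = j` this is the dimension of
the target `H_B^(j-1)(X_ℝ, ℝ(j-1))^(F_∞=1)` of the regulator; or let it be the order of
`L(h^l(X, p), s)` at `s = l + 1 - n`: any function which is additive and which depends only on the
isomorphism class of `H^l(X, p)` up to Tate twists. The numbers `s = l + 1 - n` with `n ≤ j` are those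
with `s ≤ 0`.

**Theorem.** (1) If `dim K_j(X)_ℤ^(j) = o X (j-1)`, as (1) of Q1 predicts, for all products `X` of
elementary varieties, then `dim K_j(X)_ℤ^(n) = o X l` for all these `X` and all `n ≤ j`, where
`l = 2n - j - 1 ≥ 0`, and `K_j(X)_ℤ^(n) = 0` if `2n < j + 1`.

(2) Then the groups `K_j(X)_ℤ^(n)`, `n ≤ j`, for example `K_j(X)_ℤ^(j)`, are annihilated by the
Chow–Künneth projectors `π_l`, `l ≠ 2n - j - 1`, of `X`.

(3) Suppose moreover that every variety in `𝒱` is dominated by a product of elementary varieties (for
example `𝒱` may be the class of all the varieties dominated by products of curves, which contains the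
abelian varieties and the Fermat hypersurfaces) and that Beilinson's formula
`dim CH^(r+1)(X)_hom = ord_(s=r+1) L(H^(2r+1)(X), s)` holds for the products of elementary varieties of
dimension `2r + 1`. Then for all `X`, `Y` in `𝒱` every correspondence from `X` to `Y` which acts as zero
on `H^(2n-j-1)(X)` acts as zero on `K_j(X)_ℤ^(n)`, `n ≤ j` (if also the weight of the target is at most
`j`): `K_j(X)_ℤ^(j)` depends only on `h^(j-1)(X)`.

(4) Suppose that (1) of Q1 holds. If (2) of Q1 holds for the products `X` of elementary varieties with
`dim X = j - 1`, in which case `h^(j-1)(X)` is the middle cohomology, then it holds for all products of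
elementary varieties, and the corresponding statement for `L(h^l(X), s)` at the integers
`s = l + 1 - n ≤ 0`, `2n = l + j + 1`, as well. Here the quotient in `ℝ^* / ℚ^*` of the leading
coefficient and the determinant of the regulator is replaced by any function `e X p n` with values in a
commutative group which is additive in the motive `(X, p)`, invariant under isomorphisms and Tate twists
of Chow motives, and zero if `h^l(X, p) = 0`.
-/

open Pool.Agent.H914 Pool.Agent.R903 Pool.Agent.R898

universe u v w

namespace Pool.Agent.Results.MP_4a177b_nt.ProductsOfCurves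

theorem result {k : Type u} [Field k] {𝒱 : VarClass k} {C : ChowTheory.{u, v} 𝒱}
    (W : WeilTheory.{u, v, w} C) (hPol : C.Polarized) (hP : ∀ s, ∃ P, KA.IsProj C s P)
    (T : KA.MotCoh C) (j : ℕ) (hj : 1 ≤ j) (o : ∀ X : 𝒱.Obj, C.CH (X.prod X) → ℕ → ℤ)
    (ho : KA.IsOrder W o) :
    (KA.LineDim W T j o ↔ KA.LowDim W T j o) ∧
      (KA.LineDim W T j o → ∀ X, KA.IsProduct W X → KA.LowConcentrated W T j X) ∧
      (KA.LineDim W T j o → (∀ X, ∃ Z, KA.IsProduct W Z ∧ KA.Dominates C Z X) →
        ∀ o', KA.IsOrder W o' → KA.BBMiddle W o' → KA.LowOnlyH W T j) ∧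
      (∀ (B : Type) [AddCommGroup B] (e : ∀ X : 𝒱.Obj, C.CH (X.prod X) → ℤ → B),
        KA.IsVolume W j e →
        (∀ X : 𝒱.Obj, KA.IsProduct W X → X.dim + 1 = j → e X (C.diagC X) j = 0) →
        ∀ (X : 𝒱.Obj) (n : ℤ), KA.IsProduct W X → n ≤ j → e X (C.diagC X) n = 0) :=
  ⟨⟨fun hM => KA.lowDim hP ho hj hM,
      fun h X l hX hl => (h X j hX le_rfl).1 l (by rw [← hl]; push_cast; ring)⟩,
    fun hM _ hX => KA.lowConcentrated hP ho hj hM hX,
    fun hM hdom _ ho' hM' => KA.lowOnlyH hP ho hj hM hPol hdom ho' hM',
    fun _ _ _ he hM _ _ hX hn => KA.lowVolume hP he hM hX hn⟩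

end Pool.Agent.Results.MP_4a177b_nt.ProductsOfCurves
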