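import Pool.Agent.R324.BVTop

/-!
# Beilinson's conjecture for blow-ups of projective spaces, one centre and one dimension at a time

Let `S` be a class of smooth proper varieties over `ℚ`, for example all smooth projective ones, and
`j ≥ 2`. Let `B(X, a)` be Beilinson's conjecture for `K_j(X)` at `s = -a`, with `i = j - 1 - 2a`: the regulator
`K_j(X)_ℤ^{(j-a)} ⊗ ℝ → H_B^i(X_ℝ, ℝ(j-a-1))^{F = 1}` is an isomorphism and its determinant is, up to a
rational factor, the leading coefficient of `L(h^i(X), s)` at `s = -a`. Q1 for `X` and `j` is `B(X, 0)`. A
variety is good if its L-functions have meromorphic continuations. A tower is a variety which is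
obtained from some `ℙ^N` by finitely many blow-ups in good centres. We assume the formulas for the
regulators and the L-functions of blow-ups and of products with projective spaces (`IsData`), and the
known case of dimension zero, Borel's theorem for number fields (`Points`).

**Theorem.** (1) Let `B'` be the blow-up of `X` along `W` of codimension two, `X` and `W` good, and suppose
`B(X, a)`. Then `B(B', a)` is equivalent to `B(W, a + 1)`.

(2) For one good variety `W`: `B(W, a)` for all `a ≥ 1` is equivalent to `B(B', 0)` for all blow-ups `B'` of
projective spaces along the varieties `ℙ^m × W`.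

(3) Towers of dimension `≤ 2` are good and satisfy `B(B', a)` for all `a ≥ 0`, in particular Q1.

(4) For every `a ≥ 0`: `B(B', a)` for all towers of dimension `3` is equivalent to `B(W, a + 1)` for all
curves `W` which are good centres of blow-ups of these towers. So Q1 for these rational threefolds is the
conjecture at `s = -1` for these curves.
-/

set_option autoImplicit false

open Pool.Agent.R387.BV Pool.Agent.R324.BV

namespace Pool.Agent.Results.MP_4a177b_nt.TowersInEachDimension

theorem result {S : VarClass} {D : Data S} (h : IsData D) (j : ℕ) (hj : 2 ≤ j)
    (hP : Points D j) :
    CodimensionTwo D j ∧ (∀ W, Good D W → OneVariety D j W) ∧ Surfaces D j ∧ Threefolds D j :=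
  ⟨codimensionTwo h, fun _ hW => oneVariety h hP hW, surfaces h hP, threefolds h hP⟩

end Pool.Agent.Results.MP_4a177b_nt.TowersInEachDimension
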